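import Pool.Agent.Helper87.MD.Goals

/-!
# Project MD (MP_c307ca_nt): the lattice lemma `LatStmt`
-/

set_option autoImplicit false

open Finset
open scoped Classical

namespace Pool.Agent.Helper49.MD

open Pool.Agent.Helper98.Lang

lemma nd_le_of_int {t η : ℝ} (n : ℤ) (h : |t - n| ≤ η) : nd t ≤ η :=
  (round_le t n).trans h

/-- the starts of chains -/
noncomputable def St (θ η ρ : ℝ) (X w : ℕ) : Finset ℕ :=
  (Icc 1 X).filter (fun s : ℕ => ∃ n : ℤ, |(s : ℝ) * θ - n| ≤ η ∧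
    (s ≤ w ∨ (s : ℝ) * θ - n < -η + ρ))

/-- every element lies on the chain of a start -/
lemma chain {θ η ρ : ℝ} {X w : ℕ} {m : ℤ} (hw1 : 1 ≤ w) (hρ : 0 < ρ)
    (hm : (w : ℝ) * θ = m + ρ) :
    ∀ x : ℕ, 1 ≤ x → x ≤ X → ∀ n : ℤ, |(x : ℝ) * θ - n| ≤ η →
      ∃ (s k : ℕ) (n' : ℤ), 1 ≤ s ∧ s ≤ X ∧ |(s : ℝ) * θ - n'| ≤ η ∧
        (s ≤ w ∨ (s : ℝ) * θ - n' < -η + ρ) ∧ x = s + k * w ∧ n = n' + k * m := by
  intro x
  induction x using Nat.strong_induction_on with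
  | _ x ih =>
    intro hx1 hxX n hn
    by_cases hst : x ≤ w ∨ (x : ℝ) * θ - n < -η + ρ
    · exact ⟨x, 0, n, hx1, hxX, hn, hst, by simp, by simp⟩
    · push Not at hst
      obtain ⟨hxw, hge⟩ := hst
      have hcast : ((x - w : ℕ) : ℝ) = (x : ℝ) - w := by
        rw [Nat.cast_sub hxw.le]
      have hsub : ((x - w : ℕ) : ℝ) * θ - ((n - m : ℤ) : ℝ) = ((x : ℝ) * θ - n) - ρ := by
        rw [hcast]; push_cast; linear_combination -hm
      have hab := abs_le.mp hn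
      have hel : |((x - w : ℕ) : ℝ) * θ - ((n - m : ℤ) : ℝ)| ≤ η := by
        rw [hsub, abs_le]
        constructor <;> linarith [hab.1, hab.2]
      obtain ⟨s, k, n', h1, h2, h3, h4, h5, h6⟩ := ih (x - w) (by omega) (by omega) (by omega)
        (n - m) hel
      refine ⟨s, k + 1, n', h1, h2, h3, h4, ?_, ?_⟩
      · have : x = (x - w) + w := by omega
        rw [this, h5]; ring
      · have : n = (n - m) + m := by ring
        rw [this, h6]; push_cast; ring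

/-- two starts of the second kind are far apart -/
lemma sep {θ η ρ : ℝ} {w : ℕ} {m : ℤ} (hw1 : 1 ≤ w) (hρ : 0 < ρ) (hρη : ρ ≤ 2 * η)
    (hm : (w : ℝ) * θ = m + ρ)
    (hmin : ∀ u : ℕ, 1 ≤ u → u < w → 2 * η < nd ((u : ℝ) * θ))
    {s s' : ℕ} (hss : s < s') {n n' : ℤ} (hn : |(s : ℝ) * θ - n| ≤ η)
    (hn2 : (s : ℝ) * θ - n < -η + ρ) (hn' : |(s' : ℝ) * θ - n'| ≤ η)
    (hn2' : (s' : ℝ) * θ - n' < -η + ρ) :
    1 < 2 * ρ * s' - 2 * ρ * s := by
  obtain ⟨u, rfl⟩ : ∃ u, s' = s + u := ⟨s' - s, by omega⟩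
  have hu1 : 1 ≤ u := by omega
  set τ : ℝ := (((s + u : ℕ) : ℝ) * θ - n') - ((s : ℝ) * θ - n) with hτ
  have hτu : (u : ℝ) * θ = ((n' - n : ℤ) : ℝ) + τ := by
    rw [hτ]; push_cast; ring
  have h1 := abs_le.mp hn
  have h2 := abs_le.mp hn'
  have hτ1 : τ < ρ := by rw [hτ]; linarith [h1.1]
  have hτ2 : -ρ < τ := by rw [hτ]; linarith [h2.1]
  have hτa : |τ| < ρ := abs_lt.mpr ⟨hτ2, hτ1⟩
  have huw : w ≤ u := by
    by_contra hlt
    push Not at hlt
    have := hmin u hu1 hlt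
    have h3 : nd ((u : ℝ) * θ) ≤ |τ| := by
      apply nd_le_of_int (n' - n)
      rw [hτu]; simp
    linarith
  have huw' : (w : ℝ) ≤ u := by exact_mod_cast huw
  have hw0 : (0 : ℝ) < w := by exact_mod_cast hw1
  have hu0 : (0 : ℝ) < u := by exact_mod_cast hu1
  set z : ℤ := u * m - w * (n' - n) with hz
  have hzr : (z : ℝ) = w * τ - u * ρ := by
    rw [hz]; push_cast
    have e1 : τ = (u : ℝ) * θ - ((n' : ℝ) - n) := by rw [hτu]; push_cast; ring
    have e2 : ρ = (w : ℝ) * θ - m := by rw [hm]; ring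
    rw [e1, e2]; ring
  have hwt : |(w : ℝ) * τ| < w * ρ := by
    rw [abs_mul, abs_of_pos hw0]
    exact mul_lt_mul_of_pos_left hτa hw0
  have hwt' := abs_lt.mp hwt
  have hwu : (w : ℝ) * ρ ≤ u * ρ := mul_le_mul_of_nonneg_right huw' hρ.le
  have hneg : (z : ℝ) < 0 := by rw [hzr]; linarith [hwt'.2]
  have hneg' : z ≤ -1 := by
    have : z < 0 := by exact_mod_cast hneg
    omega
  have hneg'' : (z : ℝ) ≤ -1 := by exact_mod_cast hneg'
  rw [hzr] at hneg''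
  push_cast
  nlinarith [hwt'.1]

lemma card_sep (T : Finset ℕ) (X : ℕ) (c : ℝ) (hc : 0 < c) (hT : ∀ s ∈ T, s ≤ X)
    (hs : ∀ s ∈ T, ∀ s' ∈ T, s < s' → 1 < c * s' - c * s) : (T.card : ℝ) ≤ 1 + c * X := by
  have h1 : T.card ≤ (range (⌊c * X⌋₊ + 1)).card := by
    apply Finset.card_le_card_of_injOn (fun s : ℕ => ⌊c * s⌋₊)
    · intro s hsT
      have := hT s (by simpa using hsT)
      simp only [Finset.coe_range, Set.mem_Iio]
      have h2 : ⌊c * (s : ℝ)⌋₊ ≤ ⌊c * (X : ℝ)⌋₊ := by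
        apply Nat.floor_le_floor
        apply mul_le_mul_of_nonneg_left _ hc.le
        exact_mod_cast this
      omega
    · have key : ∀ s ∈ T, ∀ s' ∈ T, s < s' → ⌊c * (s : ℝ)⌋₊ ≠ ⌊c * (s' : ℝ)⌋₊ := by
        intro s hsT s' hsT' hlt heq
        have h2 := hs s hsT s' hsT' hlt
        have h3 : (⌊c * (s' : ℝ)⌋₊ : ℝ) ≤ c * s' := Nat.floor_le (by positivity)
        have h4 : c * (s : ℝ) < ⌊c * (s : ℝ)⌋₊ + 1 := Nat.lt_floor_add_one _
        have h5 : c * (s' : ℝ) < ⌊c * (s' : ℝ)⌋₊ + 1 := Nat.lt_floor_add_one _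
        have h6 : (⌊c * (s : ℝ)⌋₊ : ℝ) ≤ c * s := Nat.floor_le (by positivity)
        rw [heq] at h6
        linarith
      intro s hsT s' hsT' heq
      have hsT1 : s ∈ T := by simpa using hsT
      have hsT2 : s' ∈ T := by simpa using hsT'
      rcases lt_trichotomy s s' with h | h | h
      · exact absurd heq (key s hsT1 s' hsT2 h)
      · exact h
      · exact absurd heq.symm (key s' hsT2 s hsT1 h)
  rw [card_range] at h1
  have h7 : (⌊c * (X : ℝ)⌋₊ : ℝ) ≤ c * X := Nat.floor_le (by positivity)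
  have h8 : (T.card : ℝ) ≤ (⌊c * (X : ℝ)⌋₊ : ℝ) + 1 := by exact_mod_cast h1
  linarith

/-- the number of starts -/
lemma card_St {θ η ρ : ℝ} {X w : ℕ} {m : ℤ} (hw1 : 1 ≤ w) (hρ : 0 < ρ) (hρη : ρ ≤ 2 * η)
    (hm : (w : ℝ) * θ = m + ρ)
    (hmin : ∀ u : ℕ, 1 ≤ u → u < w → 2 * η < nd ((u : ℝ) * θ)) :
    ((St θ η ρ X w).card : ℝ) ≤ 2 + 2 * ρ * X := by
  have hsub : St θ η ρ X w ⊆
      (Icc 1 X).filter (fun s : ℕ => ∃ n : ℤ, |(s : ℝ) * θ - n| ≤ η ∧ s ≤ w) ∪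
      (Icc 1 X).filter (fun s : ℕ => ∃ n : ℤ, |(s : ℝ) * θ - n| ≤ η ∧
        (s : ℝ) * θ - n < -η + ρ) := by
    intro s hs
    simp only [St, mem_filter] at hs
    simp only [mem_union, mem_filter]
    obtain ⟨h1, n, h2, h3 | h3⟩ := hs
    · exact Or.inl ⟨h1, n, h2, h3⟩
    · exact Or.inr ⟨h1, n, h2, h3⟩
  have hA : ((Icc 1 X).filter
      (fun s : ℕ => ∃ n : ℤ, |(s : ℝ) * θ - n| ≤ η ∧ s ≤ w)).card ≤ 1 := by
    have key : ∀ s s' : ℕ, 1 ≤ s → s < s' → s' ≤ w →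
        ∀ n n' : ℤ, |(s : ℝ) * θ - n| ≤ η → |(s' : ℝ) * θ - n'| ≤ η → False := by
      intro s s' h1 hlt hw n n' hn hn'
      have h2 := hmin (s' - s) (by omega) (by omega)
      have h3 : nd (((s' - s : ℕ) : ℝ) * θ) ≤ 2 * η := by
        apply nd_le_of_int (n' - n)
        rw [Nat.cast_sub hlt.le]
        have h4 := abs_le.mp hn
        have h5 := abs_le.mp hn'
        push_cast
        rw [abs_le]
        constructor <;> nlinarith [h4.1, h4.2, h5.1, h5.2]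
      linarith
    rw [Finset.card_le_one]
    intro s hs s' hs'
    simp only [mem_filter, mem_Icc] at hs hs'
    obtain ⟨⟨h1, h2⟩, n, h3, h4⟩ := hs
    obtain ⟨⟨h1', h2'⟩, n', h3', h4'⟩ := hs'
    rcases lt_trichotomy s s' with h | h | h
    · exact absurd (key s s' h1 h h4' n n' h3 h3') not_false
    · exact h
    · exact absurd (key s' s h1' h h4 n' n h3' h3) not_false
  have hB : (((Icc 1 X).filter (fun s : ℕ => ∃ n : ℤ, |(s : ℝ) * θ - n| ≤ η ∧
        (s : ℝ) * θ - n < -η + ρ)).card : ℝ) ≤ 1 + 2 * ρ * X := by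
    apply card_sep _ X (2 * ρ) (by linarith)
    · intro s hs
      simp only [mem_filter, mem_Icc] at hs
      exact hs.1.2
    · intro s hs s' hs' hlt
      simp only [mem_filter, mem_Icc] at hs hs'
      obtain ⟨_, n, h3, h4⟩ := hs
      obtain ⟨_, n', h3', h4'⟩ := hs'
      exact sep hw1 hρ hρη hm hmin hlt h3 h4 h3' h4'
  have hc := (Finset.card_le_card hsub).trans (Finset.card_union_le _ _)
  have hc' : ((St θ η ρ X w).card : ℝ) ≤
      (((Icc 1 X).filter (fun s : ℕ => ∃ n : ℤ, |(s : ℝ) * θ - n| ≤ η ∧ s ≤ w)).card : ℝ) +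
      (((Icc 1 X).filter (fun s : ℕ => ∃ n : ℤ, |(s : ℝ) * θ - n| ≤ η ∧
        (s : ℝ) * θ - n < -η + ρ)).card : ℝ) := by exact_mod_cast hc
  have hA' : (((Icc 1 X).filter
      (fun s : ℕ => ∃ n : ℤ, |(s : ℝ) * θ - n| ≤ η ∧ s ≤ w)).card : ℝ) ≤ 1 := by
    exact_mod_cast hA
  linarith

/-- the combinatorial bound -/
lemma comb {θ η ρ : ℝ} {X w : ℕ} {m : ℤ} (hw1 : 1 ≤ w) (hρ : 0 < ρ) (hρη : ρ ≤ 2 * η)
    (hm : (w : ℝ) * θ = m + ρ)
    (hmin : ∀ u : ℕ, 1 ≤ u → u < w → 2 * η < nd ((u : ℝ) * θ)) :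
    (((Icc 1 X).filter (fun x : ℕ => nd ((x : ℝ) * θ) ≤ η)).card : ℝ)
      ≤ (2 + 2 * ρ * X) * (1 + min (2 * η / ρ) (X / w)) := by
  have hw0 : (0 : ℝ) < w := by exact_mod_cast hw1
  have hη : 0 < η := by linarith
  set K : ℕ := ⌊min (2 * η / ρ) ((X : ℝ) / w)⌋₊ with hK
  have hmin0 : 0 ≤ min (2 * η / ρ) ((X : ℝ) / w) := by
    apply le_min <;> positivity
  have hsub : (Icc 1 X).filter (fun x : ℕ => nd ((x : ℝ) * θ) ≤ η) ⊆
      ((St θ η ρ X w) ×ˢ range (K + 1)).image (fun p : ℕ × ℕ => p.1 + p.2 * w) := by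
    intro x hx
    simp only [mem_filter, mem_Icc] at hx
    obtain ⟨⟨hx1, hxX⟩, hxn⟩ := hx
    have hxn' : |(x : ℝ) * θ - (round ((x : ℝ) * θ) : ℤ)| ≤ η := hxn
    obtain ⟨s, k, n', h1, h2, h3, h4, h5, h6⟩ := chain (X := X) hw1 hρ hm x hx1 hxX _ hxn'
    rw [mem_image]
    refine ⟨(s, k), ?_, h5.symm⟩
    rw [mem_product]
    constructor
    · simp only [St, mem_filter, mem_Icc]
      exact ⟨⟨h1, h2⟩, n', h3, h4⟩
    · simp only [mem_range]
      have hk : (k : ℝ) ≤ min (2 * η / ρ) ((X : ℝ) / w) := by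
        apply le_min
        · rw [le_div_iff₀ hρ]
          have e1 : (k : ℝ) * ρ = ((x : ℝ) * θ - (round ((x : ℝ) * θ) : ℤ)) -
              ((s : ℝ) * θ - n') := by
            rw [h6]
            have e2 : (x : ℝ) = s + k * w := by exact_mod_cast h5
            rw [e2]; push_cast; linear_combination -(k : ℝ) * hm
          have h7 := abs_le.mp hxn'
          have h8 := abs_le.mp h3
          rw [e1]; linarith [h7.2, h8.1]
        · rw [le_div_iff₀ hw0]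
          have : k * w ≤ X := by omega
          exact_mod_cast this
      have := Nat.le_floor hk
      omega
  have hc := (Finset.card_le_card hsub).trans Finset.card_image_le
  rw [card_product, card_range] at hc
  have hc' : (((Icc 1 X).filter (fun x : ℕ => nd ((x : ℝ) * θ) ≤ η)).card : ℝ)
      ≤ ((St θ η ρ X w).card : ℝ) * ((K : ℝ) + 1) := by exact_mod_cast hc
  have hK' : (K : ℝ) ≤ min (2 * η / ρ) ((X : ℝ) / w) := Nat.floor_le hmin0
  have hS := card_St (X := X) hw1 hρ hρη hm hmin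
  calc _ ≤ ((St θ η ρ X w).card : ℝ) * ((K : ℝ) + 1) := hc'
    _ ≤ (2 + 2 * ρ * X) * (1 + min (2 * η / ρ) ((X : ℝ) / w)) := by
        apply mul_le_mul hS (by linarith) (by positivity) (by positivity)

lemma nd_neg (t : ℝ) : nd (-t) = nd t := by
  have key : ∀ t : ℝ, nd (-t) ≤ nd t := by
    intro t
    apply nd_le_of_int (-round t)
    have : -t - ((-round t : ℤ) : ℝ) = -(t - round t) := by push_cast; ring
    rw [this, abs_neg]
    exact le_refl _
  apply le_antisymm (key t)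
  have := key (-t)
  rwa [neg_neg] at this

/-- the combinatorial bound, without the sign condition -/
lemma comb2 {θ η : ℝ} {X w : ℕ} (hw1 : 1 ≤ w) (hρ : 0 < nd ((w : ℝ) * θ))
    (hρη : nd ((w : ℝ) * θ) ≤ 2 * η)
    (hmin : ∀ u : ℕ, 1 ≤ u → u < w → 2 * η < nd ((u : ℝ) * θ)) :
    (((Icc 1 X).filter (fun x : ℕ => nd ((x : ℝ) * θ) ≤ η)).card : ℝ)
      ≤ (2 + 2 * nd ((w : ℝ) * θ) * X) * (1 + min (2 * η / nd ((w : ℝ) * θ)) (X / w)) := by
  rcases le_or_gt 0 ((w : ℝ) * θ - round ((w : ℝ) * θ)) with h | h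
  · have hnd : nd ((w : ℝ) * θ) = (w : ℝ) * θ - round ((w : ℝ) * θ) := abs_of_nonneg h
    exact comb (m := round ((w : ℝ) * θ)) hw1 hρ hρη (by rw [hnd]; ring) hmin
  · have hnd : nd ((w : ℝ) * θ) = -((w : ℝ) * θ - round ((w : ℝ) * θ)) := abs_of_neg h
    have hneg : ∀ x : ℕ, nd ((x : ℝ) * (-θ)) = nd ((x : ℝ) * θ) := by
      intro x
      rw [mul_neg, nd_neg]
    have := comb (θ := -θ) (η := η) (ρ := nd ((w : ℝ) * θ)) (X := X)
      (m := -round ((w : ℝ) * θ)) hw1 hρ hρη (by rw [hnd]; push_cast; ring)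
      (by intro u h1 h2; rw [hneg]; exact hmin u h1 h2)
    simpa only [hneg] using this

/-- **MD-LAT** -/
theorem mdLAT : Pool.Agent.Helper87.MD.LatStmt := by
  intro ξ hR δ hδ
  obtain ⟨c₁, hc₁, hR⟩ := hR δ hδ
  have hcs : 0 < Real.sqrt c₁ := Real.sqrt_pos.mpr hc₁
  refine ⟨8 + 5 / Real.sqrt c₁, by positivity, ?_⟩
  intro s X η hs hX hη
  have hs0 : (0 : ℝ) < s := by exact_mod_cast hs
  have hX0 : (0 : ℝ) < X := by exact_mod_cast hX
  have hP : 0 < ((s : ℝ) * X) ^ (1 + δ) := by positivity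
  set P : ℝ := ((s : ℝ) * X) ^ (1 + δ) with hPdef
  rw [← Real.sqrt_eq_rpow]
  set T : ℝ := Real.sqrt (η * P) with hT
  have hT0 : 0 ≤ T := Real.sqrt_nonneg _
  have hTsq : T ^ 2 = η * P := Real.sq_sqrt (by positivity)
  have hcsq : Real.sqrt c₁ ^ 2 = c₁ := Real.sq_sqrt hc₁.le
  -- lower bounds
  have hlow : ∀ x : ℕ, 1 ≤ x → x ≤ X → c₁ * X ≤ nd ((x : ℝ) * (s * ξ)) * x * P := by
    intro x hx1 hxX
    have hx0 : (0 : ℝ) < x := by exact_mod_cast hx1
    have hxX' : (x : ℝ) ≤ X := by exact_mod_cast hxX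
    have h1 := hR (x * s) (Nat.mul_pos hx1 hs)
    have h2 : ((x * s : ℕ) : ℝ) * ξ = (x : ℝ) * (s * ξ) := by push_cast; ring
    rw [h2] at h1
    have h3 : (1 : ℝ) ≤ (X / x) ^ δ := by
      apply Real.one_le_rpow _ hδ.le
      rw [le_div_iff₀ hx0]; linarith
    have h4 : ((x * s : ℕ) : ℝ) ^ (-(1 + δ)) * x * P = X * (X / x) ^ δ := by
      rw [hPdef]
      push_cast
      rw [Real.rpow_neg (by positivity), Real.mul_rpow hx0.le hs0.le, Real.mul_rpow hs0.le hX0.le,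
        Real.div_rpow hX0.le hx0.le, Real.rpow_add hx0, Real.rpow_add hX0, Real.rpow_one,
        Real.rpow_one]
      have e1 : (s : ℝ) ^ (1 + δ) ≠ 0 := by positivity
      have e2 : (x : ℝ) ^ δ ≠ 0 := by positivity
      field_simp
    calc c₁ * X ≤ c₁ * (X * (X / x) ^ δ) := by
          apply mul_le_mul_of_nonneg_left _ hc₁.le
          nlinarith
      _ = c₁ * ((x * s : ℕ) : ℝ) ^ (-(1 + δ)) * x * P := by rw [← h4]; ring
      _ ≤ nd ((x : ℝ) * (s * ξ)) * x * P := by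
          apply mul_le_mul_of_nonneg_right _ hP.le
          exact mul_le_mul_of_nonneg_right h1 hx0.le
  rcases Finset.eq_empty_or_nonempty
    ((Icc 1 X).filter (fun x : ℕ => nd ((x : ℝ) * (s * ξ)) ≤ η)) with he | ⟨x, hx⟩
  · rw [he]
    simp only [card_empty, Nat.cast_zero]
    positivity
  · simp only [mem_filter, mem_Icc] at hx
    obtain ⟨⟨hx1, hxX⟩, hxn⟩ := hx
    have hx0 : (0 : ℝ) < x := by exact_mod_cast hx1
    have hxX' : (x : ℝ) ≤ X := by exact_mod_cast hxX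
    have hex : ∃ u : ℕ, 1 ≤ u ∧ nd ((u : ℝ) * (s * ξ)) ≤ 2 * η := ⟨x, hx1, by linarith⟩
    set w := Nat.find hex with hwdef
    obtain ⟨hw1, hwn⟩ : 1 ≤ w ∧ nd ((w : ℝ) * (s * ξ)) ≤ 2 * η := Nat.find_spec hex
    have hmin : ∀ u : ℕ, 1 ≤ u → u < w → 2 * η < nd ((u : ℝ) * (s * ξ)) := by
      intro u h1 h2
      have := Nat.find_min hex h2
      by_contra h3
      push Not at h3
      exact this ⟨h1, h3⟩
    have hwX : w ≤ X := (Nat.find_min' hex ⟨hx1, by linarith⟩).trans hxX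
    have hw0 : (0 : ℝ) < w := by exact_mod_cast hw1
    have hlw := hlow w hw1 hwX
    have hρ : 0 < nd ((w : ℝ) * (s * ξ)) := by
      by_contra h
      push Not at h
      have : nd ((w : ℝ) * (s * ξ)) * w * P ≤ 0 := by
        apply mul_nonpos_of_nonpos_of_nonneg _ hP.le
        exact mul_nonpos_of_nonpos_of_nonneg h hw0.le
      have h5 : 0 < c₁ * X := by positivity
      linarith
    have hmain := comb2 (X := X) hw1 hρ hwn hmin
    set ρ := nd ((w : ℝ) * (s * ξ)) with hρdef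
    set μ := min (2 * η / ρ) ((X : ℝ) / w) with hμ
    have hμ0 : 0 ≤ μ := le_min (by positivity) (by positivity)
    have hμ1 : μ * ρ ≤ 2 * η := by
      have : μ ≤ 2 * η / ρ := min_le_left _ _
      rwa [le_div_iff₀ hρ] at this
    have hμ2 : μ * w ≤ X := by
      have : μ ≤ (X : ℝ) / w := min_le_right _ _
      rwa [le_div_iff₀ hw0] at this
    -- `c₁ ≤ η P`
    have hηP : c₁ ≤ η * P := by
      have h1 := hlow x hx1 hxX
      have h2 : nd ((x : ℝ) * (s * ξ)) * x * P ≤ η * X * P := by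
        apply mul_le_mul_of_nonneg_right _ hP.le
        exact mul_le_mul hxn hxX' hx0.le hη.le
      have h3 : c₁ * X ≤ (η * P) * X := by nlinarith
      exact le_of_mul_le_mul_right h3 hX0
    have hcsT : Real.sqrt c₁ ≤ T := Real.sqrt_le_sqrt hηP
    -- `c₁ μ ^ 2 ≤ 2 η P`
    have hμsq : c₁ * μ ^ 2 ≤ 2 * (η * P) := by
      have h1 : (μ * ρ) * (μ * w) ≤ 2 * η * X :=
        mul_le_mul hμ1 hμ2 (by positivity) (by positivity)
      have h2 : c₁ * X * μ ^ 2 ≤ (ρ * w * P) * μ ^ 2 :=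
        mul_le_mul_of_nonneg_right hlw (by positivity)
      have h3 : (ρ * w * P) * μ ^ 2 = (μ * ρ) * (μ * w) * P := by ring
      have h4 : (μ * ρ) * (μ * w) * P ≤ 2 * η * X * P := mul_le_mul_of_nonneg_right h1 hP.le
      have h5 : (c₁ * μ ^ 2) * X ≤ (2 * (η * P)) * X := by nlinarith
      exact le_of_mul_le_mul_right h5 hX0
    have hμT : Real.sqrt c₁ * μ ≤ 3 / 2 * T := by
      apply abs_le_of_sq_le_sq' _ (by positivity) |>.2
      have : (Real.sqrt c₁ * μ) ^ 2 = c₁ * μ ^ 2 := by rw [mul_pow, hcsq]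
      rw [this]
      have h6 : (3 / 2 * T) ^ 2 = 9 / 4 * (η * P) := by rw [mul_pow, hTsq]; norm_num
      rw [h6]
      have : 0 < η * P := by positivity
      linarith
    have h7 : μ ≤ 3 / 2 * (T / Real.sqrt c₁) := by
      have : μ ≤ (3 / 2 * T) / Real.sqrt c₁ := by
        rw [le_div_iff₀ hcs]; linarith
      calc μ ≤ (3 / 2 * T) / Real.sqrt c₁ := this
        _ = _ := by ring
    have h8 : 1 ≤ T / Real.sqrt c₁ := by
      rw [le_div_iff₀ hcs]; linarith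
    have h9 : (2 + 2 * ρ * X) * (1 + μ) ≤ 2 + 2 * μ + 8 * (η * X) := by
      have e1 : ρ * X ≤ 2 * η * X := mul_le_mul_of_nonneg_right hwn hX0.le
      have e2 : μ * ρ * X ≤ 2 * η * X := mul_le_mul_of_nonneg_right hμ1 hX0.le
      nlinarith
    have h10 : 0 ≤ η * X := by positivity
    have h11 : 0 ≤ 5 / Real.sqrt c₁ := by positivity
    calc _ ≤ (2 + 2 * ρ * X) * (1 + μ) := hmain
      _ ≤ 2 + 2 * μ + 8 * (η * X) := h9
      _ ≤ 5 * (T / Real.sqrt c₁) + 8 * (η * X) := by linarith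
      _ = 8 * (η * X) + 5 / Real.sqrt c₁ * T := by ring
      _ ≤ (8 + 5 / Real.sqrt c₁) * (η * X + T) := by nlinarith

end Pool.Agent.Helper49.MD
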